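import Mathlib
import Pool.Agent.Helper39.BucketDefs
import Pool.Agent.Helper39.BucketProof

/-!
# The gap between the greedy and the optimal bucket number is unbounded

The definitions of the game are in `Pool/Agent/Helper39/BucketDefs.lean`, the proof is in
`Pool/Agent/Helper39/BucketProof.lean`.
-/

open Pool.Agent.Helper39.Bucket in
/-- For every real `C` there is a finite simple graph whose bucket number is at most `6` and whose
greedy bucket number exceeds its bucket number by more than `C`. -/
theorem Pool.Agent.Results.MP_196ef9_co.UnboundedGap.result :
    ∀ C : ℝ, ∃ (V : Type) (_ : Fintype V) (G : SimpleGraph V),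
      bucket G ≤ 6 ∧ C < gBucket G - bucket G :=
  unbounded_gap
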